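import Pool.Agent.V1188.FPD

/-!
# A gap in the set of fixed-point proportions of level-transitive tree groups
-/

namespace Pool.Agent.Results.MP_7bf935_al.GapFPP

open Filter V1188.FP

/-- the set of fixed-point proportions of level-transitive groups of automorphisms of the
`d`-regular rooted tree -/
def fppSet (d : ℕ) : Set ℝ :=
  {c | ∃ G : Subgroup (AutT (Fin d)), LevelTransitive G ∧ IsFPP G c}

/-- upper end of the gap -/
noncomputable def hi (d : ℕ) : ℝ := ((d : ℝ) - 2) / ((d : ℝ) - 1)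

/-- lower end of the gap -/
noncomputable def lo (d : ℕ) : ℝ :=
  ((d : ℝ) - 2) / ((d : ℝ) - 1) - 1 / (((d : ℝ) - 1) * (d.factorial : ℝ) ^ (d + 1))

theorem result :
    (∀ d : ℕ, 3 ≤ d → ∀ c ∈ fppSet d, c ≤ lo d ∨ hi d ≤ c) ∧
    (∀ d : ℕ, 3 ≤ d → IsPrimePow d → ∃ α : ℝ, IsGreatest (fppSet d) α ∧
      0 ≤ lo d ∧ lo d < hi d ∧ hi d < α ∧ hi d ∈ fppSet d ∧
      ∀ c ∈ Set.Ioo (lo d) (hi d), c ∉ fppSet d) := by
  have hgap : ∀ d : ℕ, 3 ≤ d → ∀ c ∈ fppSet d, c ≤ lo d ∨ hi d ≤ c := by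
    intro d hd c hc
    have hne : Nonempty (Fin d) := ⟨⟨0, by omega⟩⟩
    obtain ⟨G, hG, hc⟩ := hc
    have h1 : fpRatio G = (famOf G hG).P := by
      funext n; exact ratio_eq G (famOf G hG) n rfl
    unfold IsFPP at hc
    rw [h1] at hc
    exact gap (famOf G hG) d (by simp) hd hc
  refine ⟨hgap, ?_⟩
  intro d hd hpp
  have hne : Nonempty (Fin d) := ⟨⟨0, by omega⟩⟩
  have hdR : (3 : ℝ) ≤ d := by exact_mod_cast hd
  have hcard : d = Fintype.card (Fin d) := by simp
  have hpp' : IsPrimePow (Fintype.card (Fin d)) := by rwa [Fintype.card_fin]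
  obtain ⟨fld⟩ := Fintype.nonempty_field_iff.mpr hpp'
  have hg := @aff_good (Fin d) (Fin d) fld (Equiv.refl _) _ _ d hcard (by omega)
  have hlim := good_lim _ d hcard (by omega) hg
  have hlim2 := @dil_lim (Fin d) (Fin d) fld (Equiv.refl _) _ _ d hcard hd
  have hmem : ∀ (F : Fam (Fin d)) (c : ℝ), Tendsto F.P atTop (nhds c) → c ∈ fppSet d := by
    intro F c hc
    refine ⟨groupOf F, groupOf_trans F, ?_⟩
    have h1 : fpRatio (groupOf F) = F.P := by
      funext n; exact ratio_eq (groupOf F) F n (map_groupOf F n)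
    unfold IsFPP
    rw [h1]
    exact hc
  have hpos : (0 : ℝ) < 1 / (((d : ℝ) - 1) * (d.factorial : ℝ) ^ (d + 1)) := by
    apply one_div_pos.mpr
    apply mul_pos (by linarith)
    apply pow_pos
    exact_mod_cast Nat.factorial_pos d
  have hle : 1 / (((d : ℝ) - 1) * (d.factorial : ℝ) ^ (d + 1)) ≤ ((d : ℝ) - 2) / ((d : ℝ) - 1) := by
    have hf : (1 : ℝ) ≤ (d.factorial : ℝ) ^ (d + 1) := by
      apply one_le_pow₀
      exact_mod_cast Nat.factorial_pos d
    rw [div_le_div_iff₀ (mul_pos (by linarith) (by linarith)) (by linarith)]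
    nlinarith [mul_le_mul_of_nonneg_left hf (show (0 : ℝ) ≤ (d : ℝ) - 1 by linarith)]
  refine ⟨bd d, ⟨hmem _ _ hlim, ?_⟩, ?_, ?_, ?_, ?_, ?_⟩
  · rintro c ⟨G, hG, hc⟩
    have h1 : fpRatio G = (famOf G hG).P := by
      funext n; exact ratio_eq G (famOf G hG) n rfl
    unfold IsFPP at hc
    rw [h1] at hc
    exact (lim_le _ d hcard (by omega) hc).1
  · unfold lo; linarith
  · unfold lo hi; linarith
  · unfold hi bd
    rw [div_lt_div_iff₀ (by linarith) (by nlinarith)]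
    nlinarith
  · exact hmem _ _ hlim2
  · rintro c ⟨hc1, hc2⟩ hc
    rcases hgap d hd c hc with h | h
    · linarith
    · linarith

end Pool.Agent.Results.MP_7bf935_al.GapFPP
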