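import Pool.Agent.V1188.FPC
import Pool.Agent.V1188.FP9

/-!
# Maximal fixed-point proportion of level-transitive tree groups

The `d`-regular rooted tree is the tree of finite words over `Fin d`; `AutT (Fin d)` is its
automorphism group, `lev (Fin d) n` the action on the words of length `n`.
-/

namespace Pool.Agent.Results.MP_7bf935_al.MaximalFPP

open Filter V1188.FP

/-- the bound `(d^2 - d - 1) / (d^2 - 1)` -/
noncomputable def beta (d : ℕ) : ℝ := ((d : ℝ) ^ 2 - d - 1) / ((d : ℝ) ^ 2 - 1)

/-- the set of fixed-point proportions of level-transitive groups of automorphisms of the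
`d`-regular rooted tree -/
def fppSet (d : ℕ) : Set ℝ :=
  {c | ∃ G : Subgroup (AutT (Fin d)), LevelTransitive G ∧ IsFPP G c}

theorem result :
    ∀ d : ℕ, 2 ≤ d → ∃ α : ℝ, IsGreatest (fppSet d) α ∧
      (IsPrimePow d → α = beta d) ∧
      (¬ IsPrimePow d → α < ((d : ℝ) - 2) / ((d : ℝ) - 1) ∧
        ((d : ℝ) - 2) / ((d : ℝ) - 1) < beta d) := by
  have hne : ∀ d : ℕ, 2 ≤ d → Nonempty (Fin d) := fun d hd => ⟨⟨0, by omega⟩⟩
  -- translation
  have hfam : ∀ (d : ℕ) (_ : 2 ≤ d) (G : Subgroup (AutT (Fin d))) (hG : LevelTransitive G),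
      fpRatio G = (famOf G hG).P := by
    intro d hd G hG
    have := hne d hd
    funext n; exact ratio_eq G (famOf G hG) n rfl
  have hF' : ∀ (d : ℕ) (_ : 2 ≤ d) (F : Fam (Fin d)) (c : ℝ), Tendsto F.P atTop (nhds c) →
      c ∈ fppSet d := by
    intro d hd F c hc
    have := hne d hd
    refine ⟨groupOf F, groupOf_trans F, ?_⟩
    have h1 : fpRatio (groupOf F) = F.P := by
      funext n; exact ratio_eq (groupOf F) F n (map_groupOf F n)
    unfold IsFPP
    rw [h1]
    exact hc
  · intro d hd
    have := hne d hd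
    have hcard : d = Fintype.card (Fin d) := by simp
    obtain ⟨F, α, hα, hmax⟩ := exists_max (Fin d)
    have hbd : ∀ (F : Fam (Fin d)) {c : ℝ}, Tendsto F.P atTop (nhds c) →
        c ≤ beta d ∧ (c = beta d → F.Good d) := fun F c hc => lim_le F d hcard hd hc
    refine ⟨α, ⟨hF' d hd F α hα, ?_⟩, ?_, ?_⟩
    · rintro c ⟨G, hG, hc⟩
      unfold IsFPP at hc
      rw [hfam d hd G hG] at hc
      exact hmax _ c hc
    · intro hpp
      have hpp' : IsPrimePow (Fintype.card (Fin d)) := by rwa [Fintype.card_fin]
      obtain ⟨fld⟩ := Fintype.nonempty_field_iff.mpr hpp'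
      have hg := @aff_good (Fin d) (Fin d) fld (Equiv.refl _) _ _ d hcard hd
      have hlim := good_lim _ d hcard hd hg
      exact le_antisymm (hbd F hα).1 (hmax _ _ hlim)
    · intro hnp
      have hd3 : 3 ≤ d := by
        rcases Nat.lt_or_ge 2 d with h | h
        · exact h
        · exfalso
          have : d = 2 := by omega
          rw [this] at hnp
          exact hnp Nat.prime_two.isPrimePow
      have hdR : (3 : ℝ) ≤ d := by exact_mod_cast hd3
      constructor
      · have h1 : ¬ thr d ≤ F.P 1 := by
          rw [← above_iff F d hd3 1]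
          intro h
          exact hnp (first_prime F d hcard hd3 h)
        have h2 := lim_le_P F hα 1
        have h3 : F.P 1 < thr d := not_le.mp h1
        exact lt_of_le_of_lt h2 h3
      · unfold beta
        rw [div_lt_div_iff₀ (by linarith) (by nlinarith)]
        nlinarith

end Pool.Agent.Results.MP_7bf935_al.MaximalFPP
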